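import Pool.Agent.H33.HH.TC

/-!
Row LGP of the board hha_modules (MP_347b49_nt): the logarithmic mean of a product.
-/

set_option autoImplicit false

open MeasureTheory Set

namespace Pool.Agent.H1.HH

open Pool.Agent.H33.HH

noncomputable section

theorem int_b1 (K : ℝ) : IntegrableOn (fun u : ℝ => K * u ^ (-(1 / 2) : ℝ)) (Ioc 0 1) := by
  refine Integrable.const_mul ?_ K
  have h := intervalIntegral.intervalIntegrable_rpow' (a := 0) (b := 1) (r := -(1 / 2))
    (by norm_num)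
  exact (intervalIntegrable_iff_integrableOn_Ioc_of_le zero_le_one).1 h

theorem int_b2 (K : ℝ) : IntegrableOn (fun u : ℝ => K * u ^ (-(5 / 4) : ℝ)) (Ioi 1) :=
  Integrable.const_mul (integrableOn_Ioi_rpow_of_lt (by norm_num) zero_lt_one) K

theorem int_of_bd {h b : ℝ → ℝ} {s : Set ℝ} (hs : MeasurableSet s) (hc : ContinuousOn h s)
    (hb : IntegrableOn b s) (hle : ∀ u ∈ s, |h u| ≤ b u) : IntegrableOn h s := by
  refine Integrable.mono' hb (hc.aestronglyMeasurable hs) ?_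
  rw [ae_restrict_iff' hs]
  exact Filter.Eventually.of_forall fun u hu => by rw [Real.norm_eq_abs]; exact hle u hu

theorem abs_int_le {h b : ℝ → ℝ} {s : Set ℝ} (hs : MeasurableSet s)
    (hb : IntegrableOn b s) (hle : ∀ u ∈ s, |h u| ≤ b u) :
    |∫ u in s, h u| ≤ ∫ u in s, b u := by
  rw [← Real.norm_eq_abs]
  refine norm_integral_le_of_norm_le hb ?_
  rw [ae_restrict_iff' hs]
  exact Filter.Eventually.of_forall fun u hu => by rw [Real.norm_eq_abs]; exact hle u hu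

/-- LGP: the logarithmic mean of a product. -/
theorem pf_LGP : T_LGP := by
  intro A B hA hB
  obtain ⟨I1, hI1⟩ : ∃ I1, I1 = ∫ u in Ioc (0 : ℝ) 1, u ^ (-(1 / 2) : ℝ) := ⟨_, rfl⟩
  obtain ⟨I2, hI2⟩ : ∃ I2, I2 = ∫ u in Ioi (1 : ℝ), u ^ (-(5 / 4) : ℝ) := ⟨_, rfl⟩
  refine ⟨(1 + A) * B * |I1| + A * (1 + B) * |I2|, by positivity, ?_⟩
  intro f f' g g' T U hT hTU hf hg
  have hU : 0 < U := lt_of_lt_of_le hT hTU
  obtain ⟨w, hw⟩ : ∃ w, w = T / U := ⟨_, rfl⟩
  have hw0 : 0 < w := hw ▸ div_pos hT hU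
  have hw1 : w ≤ 1 := by rw [hw, div_le_one hU]; exact hTU
  rw [← hw]
  obtain ⟨v, hv⟩ : ∃ v, v = w ^ (1 / 4 : ℝ) := ⟨_, rfl⟩
  rw [← hv]
  have hv0 : 0 ≤ v := hv ▸ Real.rpow_nonneg hw0.le _
  obtain ⟨F, hF⟩ : ∃ F : ℝ → ℝ, F = fun u => f (T * u) := ⟨_, rfl⟩
  obtain ⟨G, hG⟩ : ∃ G : ℝ → ℝ, G = fun u => g (T * u) := ⟨_, rfl⟩
  have e1 : (fun u => f (T * u) * g (T * u)) = fun u => F u * G u := by rw [hF, hG]
  rw [e1, ← hF]
  have hTu : ∀ u : ℝ, T * u / T = u := fun u => by field_simp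
  have hTU' : ∀ u : ℝ, T * u / U = w * u := fun u => by rw [hw]; ring
  have cF : ContinuousOn F (Ioi 0) := by
    rw [hF]
    intro u hu
    have h1 : ContinuousAt f (T * u) := (hf.der _ (mul_pos hT hu)).continuousAt
    exact (ContinuousAt.comp (f := fun u => T * u) h1
      (continuous_const.mul continuous_id).continuousAt).continuousWithinAt
  have cG : ContinuousOn G (Ioi 0) := by
    rw [hG]
    intro u hu
    have h1 : ContinuousAt g (T * u) := (hg.der _ (mul_pos hT hu)).continuousAt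
    exact (ContinuousAt.comp (f := fun u => T * u) h1
      (continuous_const.mul continuous_id).continuousAt).continuousWithinAt
  have H0 : ∀ u, 0 < u → u ≤ 1 → |F u - 1| ≤ A * u ^ (1 / 2 : ℝ) := by
    intro u hu hu1
    have h1 := (hf.n1 (T * u) (mul_pos hT hu) (by nlinarith)).1
    rw [hTu] at h1
    rw [hF]
    exact h1
  have H1 : ∀ u, 1 ≤ u → |F u| ≤ A * u ^ (-(1 / 2) : ℝ) := by
    intro u hu
    have h1 := (hf.n2 (T * u) (by nlinarith)).1
    rw [hTu] at h1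
    rw [hF]
    exact h1
  have G0 : ∀ u, 0 < u → w * u ≤ 1 → |G u - 1| ≤ B * (w * u) ^ (1 / 2 : ℝ) := by
    intro u hu hu1
    have h2 : T * u ≤ U := by
      have h3 : T * u / U ≤ 1 := by rw [hTU']; exact hu1
      rwa [div_le_one hU] at h3
    have h1 := (hg.n1 (T * u) (mul_pos hT hu) h2).1
    rw [hTU'] at h1
    rw [hG]
    exact h1
  have G1 : ∀ u, 1 ≤ w * u → |G u| ≤ B := by
    intro u hu1
    have h2 : U ≤ T * u := by
      have h3 : 1 ≤ T * u / U := by rw [hTU']; exact hu1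
      rwa [le_div_iff₀ hU, one_mul] at h3
    have h1 := (hg.n2 (T * u) h2).1
    rw [hTU'] at h1
    rw [hG]
    refine h1.trans (mul_le_of_le_one_right hB ?_)
    exact Real.rpow_le_one_of_one_le_of_nonpos hu1 (by norm_num)
  have G2 : ∀ u, 0 < u → |G u - 1| ≤ 1 + B ∧ |G u| ≤ 1 + B := by
    intro u hu
    rcases le_or_gt (w * u) 1 with h | h
    · have h1 := G0 u hu h
      have h2 : (w * u) ^ (1 / 2 : ℝ) ≤ 1 :=
        Real.rpow_le_one (mul_pos hw0 hu).le h (by norm_num)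
      have h3 : |G u - 1| ≤ B := h1.trans (mul_le_of_le_one_right hB h2)
      refine ⟨by linarith, ?_⟩
      calc |G u| = |(G u - 1) + 1| := by ring_nf
        _ ≤ |G u - 1| + |(1 : ℝ)| := abs_add_le _ _
        _ ≤ 1 + B := by rw [abs_one]; linarith
    · have h1 := G1 u h.le
      refine ⟨?_, by linarith⟩
      calc |G u - 1| ≤ |G u| + |(1 : ℝ)| := abs_sub _ _
        _ ≤ 1 + B := by rw [abs_one]; linarith
  have F2 : ∀ u, 0 < u → u ≤ 1 → |F u| ≤ 1 + A := by
    intro u hu hu1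
    have h1 := H0 u hu hu1
    have h2 : u ^ (1 / 2 : ℝ) ≤ 1 := Real.rpow_le_one hu.le hu1 (by norm_num)
    calc |F u| = |(F u - 1) + 1| := by ring_nf
      _ ≤ |F u - 1| + |(1 : ℝ)| := abs_add_le _ _
      _ ≤ 1 + A := by rw [abs_one]; linarith [h1.trans (mul_le_of_le_one_right hA h2)]
  -- powers
  have P1 : ∀ u : ℝ, 0 < u → u ^ (1 / 2 : ℝ) / u = u ^ (-(1 / 2) : ℝ) := by
    intro u hu
    rw [← Real.rpow_sub_one hu.ne']
    norm_num
  have P2 : ∀ u : ℝ, 0 < u → (w * u) ^ (1 / 2 : ℝ) ≤ v * u ^ (1 / 2 : ℝ) := by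
    intro u hu
    rw [Real.mul_rpow hw0.le hu.le, hv]
    exact mul_le_mul_of_nonneg_right
      (Real.rpow_le_rpow_of_exponent_ge hw0 hw1 (by norm_num)) (Real.rpow_nonneg hu.le _)
  -- first part
  have B1 : ∀ u ∈ Ioc (0 : ℝ) 1, |F u * (G u - 1) / u| ≤ ((1 + A) * B * v) * u ^ (-(1 / 2) : ℝ) := by
    rintro u ⟨hu, hu1⟩
    have h1 := G0 u hu (by nlinarith)
    have h2 := F2 u hu hu1
    rw [abs_div, abs_mul, abs_of_pos hu, ← P1 u hu, ← mul_div_assoc]
    refine div_le_div_of_nonneg_right ?_ hu.le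
    calc |F u| * |G u - 1| ≤ (1 + A) * (B * (v * u ^ (1 / 2 : ℝ))) :=
          mul_le_mul h2 (h1.trans (mul_le_mul_of_nonneg_left (P2 u hu) hB)) (abs_nonneg _)
            (by positivity)
      _ = (1 + A) * B * v * u ^ (1 / 2 : ℝ) := by ring
  have P3 : ∀ u : ℝ, 1 < u → u ^ (-(1 / 4) : ℝ) / u = u ^ (-(5 / 4) : ℝ) := by
    intro u hu
    rw [← Real.rpow_sub_one (by linarith : u ≠ 0)]
    norm_num
  have B2 : ∀ u ∈ Ioi (1 : ℝ), |F u * (G u - 1) / u| ≤ (A * (1 + B) * v) * u ^ (-(5 / 4) : ℝ) := by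
    intro u hu
    have hu' : (1 : ℝ) < u := hu
    have hu0 : 0 < u := by linarith
    have h1 := H1 u hu'.le
    rw [abs_div, abs_mul, abs_of_pos hu0, ← P3 u hu', ← mul_div_assoc]
    refine div_le_div_of_nonneg_right ?_ hu0.le
    have h3 : 0 ≤ u ^ (-(1 / 4) : ℝ) := Real.rpow_nonneg hu0.le _
    have h4 : u ^ (-(1 / 2) : ℝ) = u ^ (-(1 / 4) : ℝ) * u ^ (-(1 / 4) : ℝ) := by
      rw [← Real.rpow_add hu0]
      norm_num
    rcases le_or_gt (w * u) 1 with h | h
    · have h2 := G0 u hu0 h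
      have h5 : (w * u) ^ (1 / 2 : ℝ) ≤ v * u ^ (1 / 4 : ℝ) := by
        have h6 : (w * u) ^ (1 / 2 : ℝ) ≤ (w * u) ^ (1 / 4 : ℝ) :=
          Real.rpow_le_rpow_of_exponent_ge (mul_pos hw0 hu0) h (by norm_num)
        rwa [Real.mul_rpow (y := u) (z := 1 / 4) hw0.le hu0.le, ← hv] at h6
      have h6 : u ^ (-(1 / 2) : ℝ) * u ^ (1 / 4 : ℝ) = u ^ (-(1 / 4) : ℝ) := by
        rw [← Real.rpow_add hu0]
        norm_num
      calc |F u| * |G u - 1| ≤ (A * u ^ (-(1 / 2) : ℝ)) * (B * (v * u ^ (1 / 4 : ℝ))) :=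
            mul_le_mul h1 (h2.trans (mul_le_mul_of_nonneg_left h5 hB)) (abs_nonneg _)
              (by positivity)
        _ = A * B * v * (u ^ (-(1 / 2) : ℝ) * u ^ (1 / 4 : ℝ)) := by ring
        _ = A * B * v * u ^ (-(1 / 4) : ℝ) := by rw [h6]
        _ ≤ A * (1 + B) * v * u ^ (-(1 / 4) : ℝ) := by
            refine mul_le_mul_of_nonneg_right (mul_le_mul_of_nonneg_right
              (mul_le_mul_of_nonneg_left (by linarith) hA) hv0) h3
    · have h2 := (G2 u hu0).1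
      have h5 : u ^ (-(1 / 4) : ℝ) ≤ v := by
        rw [hv, Real.rpow_neg hu0.le, ← Real.inv_rpow hu0.le]
        refine Real.rpow_le_rpow (inv_nonneg.2 hu0.le) ?_ (by norm_num)
        rw [inv_le_iff_one_le_mul₀ hu0]
        exact h.le
      calc |F u| * |G u - 1| ≤ (A * u ^ (-(1 / 2) : ℝ)) * (1 + B) :=
            mul_le_mul h1 h2 (abs_nonneg _) (by positivity)
        _ = A * (1 + B) * u ^ (-(1 / 4) : ℝ) * u ^ (-(1 / 4) : ℝ) := by rw [h4]; ring
        _ ≤ A * (1 + B) * v * u ^ (-(1 / 4) : ℝ) :=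
            mul_le_mul_of_nonneg_right (mul_le_mul_of_nonneg_left h5 (by positivity)) h3
  -- integrability
  have sub1 : Ioc (0 : ℝ) 1 ⊆ Ioi 0 := fun u hu => hu.1
  have sub2 : Ioi (1 : ℝ) ⊆ Ioi 0 := Ioi_subset_Ioi zero_le_one
  have cid : ∀ s : Set ℝ, s ⊆ Ioi 0 → ∀ h : ℝ → ℝ, ContinuousOn h s →
      ContinuousOn (fun u => h u / u) s := fun s hs h hc =>
    hc.div continuousOn_id fun u hu => (hs hu).ne'
  have J1 : IntegrableOn (fun u => (F u - 1) / u) (Ioc 0 1) := by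
    refine int_of_bd measurableSet_Ioc
      (cid _ sub1 (fun u => F u - 1) ((cF.mono sub1).sub continuousOn_const)) (int_b1 A) ?_
    rintro u ⟨hu, hu1⟩
    rw [abs_div, abs_of_pos hu, ← P1 u hu, ← mul_div_assoc]
    exact div_le_div_of_nonneg_right (H0 u hu hu1) hu.le
  have J2 : IntegrableOn (fun u => F u * (G u - 1) / u) (Ioc 0 1) :=
    int_of_bd measurableSet_Ioc (cid _ sub1 (fun u => F u * (G u - 1))
      ((cF.mono sub1).mul ((cG.mono sub1).sub continuousOn_const))) (int_b1 _) B1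
  have J3 : IntegrableOn (fun u => F u / u) (Ioi 1) := by
    refine int_of_bd measurableSet_Ioi (cid _ sub2 F (cF.mono sub2)) (int_b2 A) ?_
    intro u hu
    have hu' : (1 : ℝ) < u := hu
    have hu0 : 0 < u := by linarith
    rw [abs_div, abs_of_pos hu0, ← P3 u hu', ← mul_div_assoc]
    refine div_le_div_of_nonneg_right ((H1 u hu'.le).trans (mul_le_mul_of_nonneg_left ?_ hA)) hu0.le
    exact Real.rpow_le_rpow_of_exponent_le hu'.le (by norm_num)
  have J4 : IntegrableOn (fun u => F u * (G u - 1) / u) (Ioi 1) :=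
    int_of_bd measurableSet_Ioi (cid _ sub2 (fun u => F u * (G u - 1))
      ((cF.mono sub2).mul ((cG.mono sub2).sub continuousOn_const))) (int_b2 _) B2
  have E1 : ∫ u in Ioc (0 : ℝ) 1, (F u * G u - 1) / u =
      (∫ u in Ioc (0 : ℝ) 1, (F u - 1) / u) + ∫ u in Ioc (0 : ℝ) 1, F u * (G u - 1) / u := by
    rw [← integral_add J1 J2]
    refine integral_congr_ae (Filter.Eventually.of_forall fun u => ?_)
    simp only
    ring
  have E2 : ∫ u in Ioi (1 : ℝ), F u * G u / u =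
      (∫ u in Ioi (1 : ℝ), F u / u) + ∫ u in Ioi (1 : ℝ), F u * (G u - 1) / u := by
    rw [← integral_add J3 J4]
    refine integral_congr_ae (Filter.Eventually.of_forall fun u => ?_)
    simp only
    ring
  have L1 := abs_int_le measurableSet_Ioc (int_b1 ((1 + A) * B * v)) B1
  have L2 := abs_int_le measurableSet_Ioi (int_b2 (A * (1 + B) * v)) B2
  rw [integral_const_mul, ← hI1] at L1
  rw [integral_const_mul, ← hI2] at L2
  unfold Lg
  rw [E1, E2]
  have e2 : ∀ a b c d : ℝ, a + b + (c + d) - (a + c) = b + d := fun a b c d => by ring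
  rw [e2]
  refine (abs_add_le _ _).trans ((add_le_add L1 L2).trans ?_)
  have h1 : (1 + A) * B * v * I1 ≤ (1 + A) * B * v * |I1| :=
    mul_le_mul_of_nonneg_left (le_abs_self _) (by positivity)
  have h2 : A * (1 + B) * v * I2 ≤ A * (1 + B) * v * |I2| :=
    mul_le_mul_of_nonneg_left (le_abs_self _) (by positivity)
  calc (1 + A) * B * v * I1 + A * (1 + B) * v * I2
      ≤ (1 + A) * B * v * |I1| + A * (1 + B) * v * |I2| := add_le_add h1 h2
    _ = _ := by ring

end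

end Pool.Agent.H1.HH
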