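import Pool.Agent.H33.HH.TC
import Pool.Agent.H19.CV.CZ
import Pool.Agent.H27.CV.CM
import Pool.Agent.H49.CV.CX
import Pool.Agent.H37.CV.FM
import Pool.Agent.H46.HH.NRM

/-!
Row SEL of the board hha_modules (MP_347b49_nt): the quadratic form at Selberg's weights.
-/

set_option autoImplicit false

open Finset Filter Topology

namespace Pool.Agent.H1.HH

open Pool.Agent.H33.HH Pool.Agent.H37.CV Pool.Agent.H28.RC

noncomputable section

section comb

variable {α : Type} {N : α → ℝ}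

theorem log_nS (hN : ∀ P, 2 ≤ N P) (S : Finset α) :
    Real.log (nS N S) = ∑ p ∈ S, Real.log (N p) := by
  unfold nS
  refine Real.log_prod ?_
  intro p _
  have := hN p
  positivity

open scoped Classical in
/-- the remainder term of the kernel -/
def RR (N : α → ℝ) (S T : Finset α) : ℝ :=
  ∑ E ∈ (S ∩ T).powerset, fS N E * (Real.log (nS N (S ∩ T)) - Real.log (nS N E))

open scoped Classical in
theorem RR_eq (hN : ∀ P, 2 ≤ N P) {A S T : Finset α} (hS : S ⊆ A) :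
    RR N S T = ∑ E ∈ A.powerset, ∑ p ∈ A, (if p ∉ E then fS N E * Real.log (N p) else 0) *
      ((if E ⊆ S ∧ p ∈ S then 1 else 0) * (if E ⊆ T ∧ p ∈ T then 1 else 0)) := by
  have h1 : (S ∩ T).powerset = A.powerset.filter fun E => E ⊆ S ∧ E ⊆ T := by
    ext E
    rw [mem_filter, mem_powerset, mem_powerset, subset_inter_iff]
    exact ⟨fun h => ⟨h.1.trans hS, h⟩, fun h => h.2⟩
  unfold RR
  rw [h1, sum_filter]
  refine sum_congr rfl fun E _ => ?_
  by_cases hE : E ⊆ S ∧ E ⊆ T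
  · rw [if_pos hE, log_nS hN, log_nS hN]
    have h2 : E ⊆ S ∩ T := subset_inter hE.1 hE.2
    have h3 : ∑ p ∈ S ∩ T, Real.log (N p) - ∑ p ∈ E, Real.log (N p) =
        ∑ p ∈ (S ∩ T) \ E, Real.log (N p) := by
      rw [← sum_sdiff h2]
      ring
    have h4 : (S ∩ T) \ E = A.filter fun p => p ∉ E ∧ p ∈ S ∧ p ∈ T := by
      ext p
      rw [Finset.mem_filter, Finset.mem_sdiff, Finset.mem_inter]
      exact ⟨fun h => ⟨hS h.1.1, h.2, h.1.1, h.1.2⟩, fun h => ⟨⟨h.2.2.1, h.2.2.2⟩, h.2.1⟩⟩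
    rw [h3, h4, sum_filter, mul_sum]
    refine sum_congr rfl fun p _ => ?_
    by_cases hp : p ∉ E ∧ p ∈ S ∧ p ∈ T
    · rw [if_pos hp, if_pos hp.1, if_pos ⟨hE.1, hp.2.1⟩, if_pos ⟨hE.2, hp.2.2⟩]
      ring
    · rw [if_neg hp, mul_zero]
      by_cases h5 : p ∉ E
      · by_cases h6 : p ∈ S
        · have h7 : p ∉ T := fun h7 => hp ⟨h5, h6, h7⟩
          rw [if_neg (fun h => h7 h.2 : ¬ (E ⊆ T ∧ p ∈ T))]
          ring
        · rw [if_neg (fun h => h6 h.2 : ¬ (E ⊆ S ∧ p ∈ S))]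
          ring
      · rw [if_neg h5]
        ring
  · rw [if_neg hE]
    symm
    refine sum_eq_zero fun p _ => ?_
    by_cases h6 : E ⊆ S
    · have h7 : ¬ E ⊆ T := fun h7 => hE ⟨h6, h7⟩
      rw [if_neg (fun h => h7 h.1 : ¬ (E ⊆ T ∧ p ∈ T))]
      ring
    · rw [if_neg (fun h => h6 h.1 : ¬ (E ⊆ S ∧ p ∈ S))]
      ring

theorem sum_RR_nonneg (hN : ∀ P, 2 ≤ N P) (A : Finset α) (D : Finset (Finset α))
    (hD : ∀ S ∈ D, S ⊆ A) (w : Finset α → ℝ) :
    0 ≤ ∑ S ∈ D, ∑ T ∈ D, w S * w T * RR N S T := by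
  classical
  obtain ⟨c, hc⟩ : ∃ c : Finset α → α → ℝ, c = fun E p =>
    if p ∉ E then fS N E * Real.log (N p) else 0 := ⟨_, rfl⟩
  obtain ⟨χ, hχ⟩ : ∃ χ : Finset α → α → Finset α → ℝ, χ = fun E p S =>
    if E ⊆ S ∧ p ∈ S then 1 else 0 := ⟨_, rfl⟩
  have h1 : ∀ S ∈ D, ∀ T ∈ D, RR N S T =
      ∑ E ∈ A.powerset, ∑ p ∈ A, c E p * (χ E p S * χ E p T) := by
    intro S hS T hT
    rw [RR_eq hN (hD S hS), hc, hχ]
  have h2 : ∑ S ∈ D, ∑ T ∈ D, w S * w T * RR N S T =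
      ∑ E ∈ A.powerset, ∑ p ∈ A, c E p * (∑ S ∈ D, w S * χ E p S) ^ 2 := by
    calc ∑ S ∈ D, ∑ T ∈ D, w S * w T * RR N S T
        = ∑ S ∈ D, ∑ T ∈ D, ∑ E ∈ A.powerset, ∑ p ∈ A,
            c E p * ((w S * χ E p S) * (w T * χ E p T)) := by
          refine sum_congr rfl fun S hS => sum_congr rfl fun T hT => ?_
          rw [h1 S hS T hT, mul_sum]
          refine sum_congr rfl fun E _ => ?_
          rw [mul_sum]
          refine sum_congr rfl fun p _ => ?_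
          ring
      _ = ∑ S ∈ D, ∑ E ∈ A.powerset, ∑ p ∈ A, ∑ T ∈ D,
            c E p * ((w S * χ E p S) * (w T * χ E p T)) := by
          refine sum_congr rfl fun S _ => ?_
          rw [sum_comm]
          refine sum_congr rfl fun E _ => ?_
          rw [sum_comm]
      _ = ∑ E ∈ A.powerset, ∑ p ∈ A, ∑ S ∈ D, ∑ T ∈ D,
            c E p * ((w S * χ E p S) * (w T * χ E p T)) := by
          rw [sum_comm]
          refine sum_congr rfl fun E _ => ?_
          rw [sum_comm]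
      _ = _ := by
          refine sum_congr rfl fun E _ => sum_congr rfl fun p _ => ?_
          rw [sq, sum_mul_sum, mul_sum]
          refine sum_congr rfl fun S _ => ?_
          rw [mul_sum]
  rw [h2]
  refine sum_nonneg fun E _ => sum_nonneg fun p _ => mul_nonneg ?_ (sq_nonneg _)
  rw [hc]
  by_cases hp : p ∉ E
  · simp only [if_pos hp]
    have h3 : 0 < fS N E := Pool.Agent.H27.CV.fS_pos hN E
    have h4 := hN p
    exact mul_nonneg h3.le (Real.log_nonneg (by linarith))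
  · simp only [if_neg hp]
    exact le_rfl

open scoped Classical in
/-- the kernel -/
theorem ker_eq (hN : ∀ P, 2 ≤ N P) (c : ℝ) (S T : Finset α) :
    ∑ E ∈ (S ∩ T).powerset, fS N E * (c + Real.log (nS N E) - Real.log (nS N S) -
      Real.log (nS N T) + Real.log (nS N (S ∩ T))) =
    c * gg N ∅ ∅ S T + gg N ∅ ∅ S T * Real.log (gg N ∅ ∅ S T ^ 2 / (nS N S * nS N T)) -
      RR N S T := by
  have hg : gg N ∅ ∅ S T = nS N (S ∩ T) := by
    unfold gg
    simp [nS]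
  have p1 : 0 < nS N S := Pool.Agent.H27.CV.nS_pos hN S
  have p2 : 0 < nS N T := Pool.Agent.H27.CV.nS_pos hN T
  have p3 : 0 < nS N (S ∩ T) := Pool.Agent.H27.CV.nS_pos hN _
  have hl : Real.log (nS N (S ∩ T) ^ 2 / (nS N S * nS N T)) =
      2 * Real.log (nS N (S ∩ T)) - Real.log (nS N S) - Real.log (nS N T) := by
    rw [Real.log_div (by positivity) (by positivity), Real.log_pow, Real.log_mul p1.ne' p2.ne']
    push_cast
    ring
  rw [hg, hl]
  have h1 : ∀ E ∈ (S ∩ T).powerset, fS N E * (c + Real.log (nS N E) - Real.log (nS N S) -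
      Real.log (nS N T) + Real.log (nS N (S ∩ T))) =
      fS N E * (c + 2 * Real.log (nS N (S ∩ T)) - Real.log (nS N S) - Real.log (nS N T)) -
        fS N E * (Real.log (nS N (S ∩ T)) - Real.log (nS N E)) := fun E _ => by ring
  rw [sum_congr rfl h1, sum_sub_distrib, ← sum_mul, ← Pool.Agent.H27.CV.nS_eq_sum]
  unfold RR
  ring

open scoped Classical in
theorem form_le (hN : ∀ P, 2 ≤ N P) (A : Finset α) (M c : ℝ) (hM : 1 ≤ M) :
    ∑ S ∈ DS N A M, ∑ T ∈ DS N A M, xS N A M S * xS N A M T *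
      ((∑ E ∈ (S ∩ T).powerset, fS N E * (c + Real.log (nS N E) - Real.log (nS N S) -
        Real.log (nS N T) + Real.log (nS N (S ∩ T)))) / (nS N S * nS N T)) ≤
    c * (GS N A M)⁻¹ + (2 / GS N A M ^ 2 * ∑ S ∈ DS N A M, Real.log (nS N S) / fS N S +
        2 / GS N A M * ∑ P ∈ A, Real.log (N P) / (N P - 1) ^ 2) := by
  obtain ⟨h1, h2⟩ := Pool.Agent.H27.CV.pf_CM Pool.Agent.H49.CV.pf_CX Pool.Agent.H19.CV.pf_CZ
    α N A M hN hM
  have h3 := sum_RR_nonneg hN A (DS N A M)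
    (fun S hS => (Pool.Agent.H27.CV.mem_DS.1 hS).1) (fun S => xS N A M S / nS N S)
  have e : ∑ S ∈ DS N A M, ∑ T ∈ DS N A M, xS N A M S * xS N A M T *
      ((∑ E ∈ (S ∩ T).powerset, fS N E * (c + Real.log (nS N E) - Real.log (nS N S) -
        Real.log (nS N T) + Real.log (nS N (S ∩ T)))) / (nS N S * nS N T)) =
      c * (∑ S ∈ DS N A M, ∑ T ∈ DS N A M,
        xS N A M S * xS N A M T * (gg N ∅ ∅ S T / (nS N S * nS N T))) +
      (∑ S ∈ DS N A M, ∑ T ∈ DS N A M,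
        xS N A M S * xS N A M T * (gg N ∅ ∅ S T / (nS N S * nS N T)) *
        Real.log (gg N ∅ ∅ S T ^ 2 / (nS N S * nS N T))) -
      ∑ S ∈ DS N A M, ∑ T ∈ DS N A M, xS N A M S / nS N S * (xS N A M T / nS N T) *
        RR N S T := by
    rw [mul_sum, ← sum_add_distrib, ← sum_sub_distrib]
    refine sum_congr rfl fun S _ => ?_
    rw [mul_sum, ← sum_add_distrib, ← sum_sub_distrib]
    refine sum_congr rfl fun T _ => ?_
    rw [ker_eq hN]
    have p1 : nS N S ≠ 0 := (Pool.Agent.H27.CV.nS_pos hN S).ne'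
    have p2 : nS N T ≠ 0 := (Pool.Agent.H27.CV.nS_pos hN T).ne'
    field_simp
  rw [e, h1]
  linarith

theorem form_le' [inst : DecidableEq α] (hN : ∀ P, 2 ≤ N P) (A : Finset α) (M c : ℝ)
    (hM : 1 ≤ M) :
    ∑ S ∈ DS N A M, ∑ T ∈ DS N A M, xS N A M S * xS N A M T *
      ((∑ E ∈ (S ∩ T).powerset, fS N E * (c + Real.log (nS N E) - Real.log (nS N S) -
        Real.log (nS N T) + Real.log (nS N (S ∩ T)))) / (nS N S * nS N T)) ≤
    c * (GS N A M)⁻¹ + (2 / GS N A M ^ 2 * ∑ S ∈ DS N A M, Real.log (nS N S) / fS N S +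
        2 / GS N A M * ∑ P ∈ A, Real.log (N P) / (N P - 1) ^ 2) := by
  obtain rfl : inst = fun a b => Classical.propDecidable (a = b) := Subsingleton.elim _ _
  exact form_le hN A M c hM

end comb

open NumberField in
theorem rk_pos (K : Type) [Field K] [NumberField K] [IQ K] (P : ℝ) : 0 < rk K P := by
  unfold rk
  refine mul_pos ?_ (prod_pos fun p _ => ?_)
  · unfold rh
    have h1 : 0 < wu K := (Pool.Agent.H46.HH.pf_NRM K).2.1
    have h2 : 0 < sd K := by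
      unfold sd
      refine Real.sqrt_pos.2 (abs_pos.2 ?_)
      exact_mod_cast discr_ne_zero K
    have h3 : 0 < hc K := by
      unfold hc
      exact_mod_cast classNumber_pos K
    positivity
  · have := two_le_np p
    rw [sub_pos, div_lt_one (by linarith)]
    linarith

/-- SEL: the quadratic form. -/
theorem pf_SEL (h1 : T_GLk) (h2 : T_IDF) : T_SEL := by
  intro K _ _ _ P θ ε hθ hε
  obtain ⟨C, hC, hG, hL, hX⟩ := h1 K P
  have hr : 0 < rk K P := rk_pos K P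
  obtain ⟨r, hr'⟩ : ∃ r, r = rk K P := ⟨_, rfl⟩
  rw [← hr'] at hr hG hL
  -- the limit
  obtain ⟨δ, hδ, hlim⟩ : ∃ δ : ℝ, 0 < δ ∧ ∀ u : ℝ, 0 < u → u < δ →
      (1 + C * u) / θ + (1 + C * u) ^ 2 + 2 * r * C * u ^ 2 + 2 * C * (1 + C * u) * u +
        2 * r * C * u ≤ 1 + 1 / θ + ε := by
    have hc : Continuous fun u : ℝ => (1 + C * u) / θ + (1 + C * u) ^ 2 + 2 * r * C * u ^ 2 +
        2 * C * (1 + C * u) * u + 2 * r * C * u := by
      refine Continuous.add (Continuous.add (Continuous.add (Continuous.add ?_ ?_) ?_) ?_) ?_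
      · exact (continuous_const.add (continuous_const.mul continuous_id)).div_const _
      · fun_prop
      · fun_prop
      · fun_prop
      · fun_prop
    have h3 := Metric.continuous_iff.1 hc 0 ε hε
    obtain ⟨δ, hδ, h4⟩ := h3
    refine ⟨δ, hδ, fun u hu hu' => ?_⟩
    have h5 := h4 u (by rw [Real.dist_eq, sub_zero, abs_of_pos hu]; exact hu')
    rw [Real.dist_eq] at h5
    have h6 := (abs_lt.1 h5).2
    have h7 : (1 + C * 0) / θ + (1 + C * 0) ^ 2 + 2 * r * C * 0 ^ 2 + 2 * C * (1 + C * 0) * 0 +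
        2 * r * C * 0 = 1 / θ + 1 := by ring
    rw [h7] at h6
    linarith
  refine ⟨Real.exp (((1 / δ + C) / r + 1) / θ) , fun Q hQ => ?_⟩
  have hQ0 : 0 < Q := lt_of_lt_of_le (Real.exp_pos _) hQ
  have hlogQ : ((1 / δ + C) / r + 1) / θ ≤ Real.log Q := by
    rw [Real.le_log_iff_exp_le hQ0]
    exact hQ
  obtain ⟨Λ, hΛ⟩ : ∃ Λ, Λ = θ * Real.log Q := ⟨_, rfl⟩
  have hΛ1 : (1 / δ + C) / r + 1 ≤ Λ := by
    rw [hΛ]
    rwa [div_le_iff₀ hθ, mul_comm] at hlogQ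
  have hΛ0 : 0 ≤ Λ := by
    have : 0 ≤ (1 / δ + C) / r := by positivity
    linarith
  have hlogy : Real.log (Q ^ θ) = Λ := by rw [Real.log_rpow hQ0, hΛ]
  have hy0 : 0 < Q ^ θ := Real.rpow_pos_of_pos hQ0 _
  have hy1 : 1 ≤ Q ^ θ := by
    rw [← Real.log_nonneg_iff hy0, hlogy]
    exact hΛ0
  have hrΛ : 1 / δ + C < r * Λ := by
    have h3 : (1 / δ + C) / r < Λ := by linarith
    rwa [div_lt_iff₀ hr, mul_comm] at h3
  obtain ⟨g, hg⟩ : ∃ g, g = GS np (AP K P (Q ^ θ)) (Q ^ θ) := ⟨_, rfl⟩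
  have hG' := hG _ hy1
  rw [hlogy, ← hg] at hG'
  have hgl : r * Λ - C ≤ g := by linarith [(abs_le.1 hG').1]
  have hd : 0 < 1 / δ := by positivity
  have hs : 0 < r * Λ - C := by linarith
  have hg0 : 0 < g := lt_of_lt_of_le hs hgl
  have hL' := hL _ hy1
  rw [hlogy] at hL'
  have hX' := hX (AP K P (Q ^ θ))
  have hV : Vq K P θ Q ≤ r * (Real.log Q * g⁻¹ + (2 / g ^ 2 *
      ∑ S ∈ DP K P (Q ^ θ), Real.log (nS np S) / fS np S +
      2 / g * ∑ p ∈ AP K P (Q ^ θ), Real.log (np p) / (np p - 1) ^ 2)) := by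
    unfold Vq
    rw [← hr']
    refine mul_le_mul_of_nonneg_left ?_ hr.le
    rw [hg]
    unfold Vst DP lm
    exact form_le' (N := (np : PrI K → ℝ)) two_le_np (AP K P (Q ^ θ)) (Q ^ θ) (Real.log Q) hy1
  refine hV.trans ?_
  obtain ⟨u, hu⟩ : ∃ u, u = (r * Λ - C)⁻¹ := ⟨_, rfl⟩
  have hu0 : 0 < u := hu ▸ inv_pos.2 hs
  have huδ : u < δ := by
    rw [hu, inv_lt_comm₀ hs hδ, inv_eq_one_div]
    linarith
  have hgu : g⁻¹ ≤ u := by
    rw [hu]
    exact inv_anti₀ hs hgl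
  have hgi : 0 < g⁻¹ := inv_pos.2 hg0
  refine le_trans ?_ (hlim u hu0 huδ)
  have hru : r * Λ * u = 1 + C * u := by
    have h3 : (r * Λ - C) * u = 1 := by rw [hu]; exact mul_inv_cancel₀ hs.ne'
    linarith
  have hlQ : Real.log Q = Λ / θ := by rw [hΛ]; field_simp
  have t1 : Real.log Q * g⁻¹ ≤ Λ / θ * u := by
    rw [hlQ]
    exact mul_le_mul_of_nonneg_left hgu (by positivity)
  have t2 : 2 / g ^ 2 * ∑ S ∈ DP K P (Q ^ θ), Real.log (nS np S) / fS np S ≤
      2 * u ^ 2 * (r * Λ ^ 2 / 2 + C * (1 + Λ)) := by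
    have h3 : 2 / g ^ 2 = 2 * g⁻¹ ^ 2 := by rw [inv_pow]; rfl
    rw [h3]
    refine (mul_le_mul_of_nonneg_left hL' (by positivity)).trans ?_
    refine mul_le_mul_of_nonneg_right ?_ (by positivity)
    exact mul_le_mul_of_nonneg_left (pow_le_pow_left₀ hgi.le hgu 2) zero_le_two
  have t3 : 2 / g * ∑ p ∈ AP K P (Q ^ θ), Real.log (np p) / (np p - 1) ^ 2 ≤ 2 * u * C := by
    have h3 : 2 / g = 2 * g⁻¹ := rfl
    rw [h3]
    refine (mul_le_mul_of_nonneg_left hX' (by positivity)).trans ?_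
    exact mul_le_mul_of_nonneg_right (mul_le_mul_of_nonneg_left hgu zero_le_two) hC
  have t4 : r * (Λ / θ * u + (2 * u ^ 2 * (r * Λ ^ 2 / 2 + C * (1 + Λ)) + 2 * u * C)) =
      (1 + C * u) / θ + (1 + C * u) ^ 2 + 2 * r * C * u ^ 2 + 2 * C * (1 + C * u) * u +
        2 * r * C * u := by
    rw [← hru]
    ring
  rw [← t4]
  exact mul_le_mul_of_nonneg_left (by linarith) hr.le

end

end Pool.Agent.H1.HH
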